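import Mathlib
import Pool.Agent.Results.MP_927be3_nt.AtLeastKPlusTwo

/-!
# The p-adic lower bound for the minimal dimension `d_0(k)`

For `k ≥ 3` put
`D(k) = max (k + 2, p ^ (v_p(k) + 1) for the primes p with (p - 1) ∣ k, 2 ^ (v_2(k) + 2) if k is even)`.
We prove that the order of magnitude `N_{k,d}(r) ≍ r^(d-k)` fails in every dimension
`1 ≤ d < D(k)`, so `d_0(k) ≥ D(k)`, and that `D(k)` is exactly the least `d ≥ k + 2` for which the
form `x_1^k + ... + x_d^k` has no `p`-adic obstruction (for every prime `p` and every `t` it has a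
zero modulo `p^t` with a coordinate prime to `p`).

Examples: `d_0(4) ≥ 16`, `d_0(6) ≥ 9`, `d_0(8) ≥ 32`, `d_0(12) ≥ 16`, and `d_0(2^a) ≥ 4 * 2^a`.

Lower bound.  Let `(p - 1) ∣ k` and `q = p ^ (v_p(k) + 1)` (or `p = 2`, `k` even and
`q = 2 ^ (v_2(k) + 2)`).  The `k`-th power of an integer is `1` or `0` modulo `q`, and it is `0`
exactly for the multiples of `p`.  If `d < q`, then all coordinates of a point of the sphere of
radius `p ^ (t + 1)` are divisible by `p`, so `N(p ^ t) = N(1)` for all `t`, whereas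
`(p ^ t) ^ (d - k)` tends to infinity for `d > k`.
Dimensions `d ≤ k + 1` are excluded by the earlier file `AtLeastKPlusTwo`.

The idea of the descent is due to helper692.
-/

open Finset

namespace Pool.Agent.Results.MP_927be3_nt.LocalLowerBound

open Pool.Agent.Results.MP_927be3_nt.AtLeastKPlusTwo

/-- `x_1^k + ... + x_d^k` has no obstruction at `p`: for every `t` there are natural numbers
`y_1, ..., y_d`, not all divisible by `p`, with `p^t ∣ y_1^k + ... + y_d^k`. -/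
def Isotropic (k d p : ℕ) : Prop :=
  ∀ t : ℕ, ∃ y : Fin d → ℕ, p ^ t ∣ ∑ i, y i ^ k ∧ ∃ i, ¬ p ∣ y i

/-- `D(k)`: the maximum of `k + 2`, of `p ^ (v_p(k) + 1)` for the primes `p` with `(p - 1) ∣ k`,
and of `2 ^ (v_2(k) + 2)` if `k` is even. -/
def threshold (k : ℕ) : ℕ :=
  max (k + 2) (max
    (((Finset.range (k + 2)).filter fun p => p.Prime ∧ (p - 1) ∣ k).sup
      fun p => p ^ (padicValNat p k + 1))
    (if 2 ∣ k then 2 ^ (padicValNat 2 k + 2) else 0))

/-- Descent: if `k`-th powers of integers prime to `p` are `1` modulo `q`, if `q` divides the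
`k`-th powers of the multiples of `p`, and if `d < q`, then a sum of `d` `k`-th powers divisible by
`q` has all terms divisible by `p`. -/
lemma all_dvd {k d p q : ℕ} (h1 : ∀ m : ℕ, ¬ p ∣ m → m ^ k ≡ 1 [MOD q])
    (h2 : ∀ m : ℕ, p ∣ m → q ∣ m ^ k) (hdq : d < q) (x : Fin d → ℕ) (hx : q ∣ ∑ i, x i ^ k) :
    ∀ i, p ∣ x i := by
  classical
  by_contra hcon
  push Not at hcon
  obtain ⟨i₀, hi₀⟩ := hcon
  set J : Finset (Fin d) := univ.filter fun i => ¬ p ∣ x i with hJ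
  have hcard : J.card ≤ d := by
    simpa using Finset.card_le_univ J
  have hpos : 0 < J.card := Finset.card_pos.mpr ⟨i₀, by simp [hJ, hi₀]⟩
  have hmod : ∑ i, x i ^ k ≡ J.card [MOD q] := by
    have : ∀ i, x i ^ k ≡ (if ¬ p ∣ x i then 1 else 0) [MOD q] := by
      intro i
      by_cases hi : p ∣ x i
      · simp only [hi, not_true_eq_false, if_false]
        exact (Nat.modEq_zero_iff_dvd).mpr (h2 _ hi)
      · simp only [hi, not_false_eq_true, if_true]
        exact h1 _ hi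
    calc ∑ i, x i ^ k ≡ ∑ i, (if ¬ p ∣ x i then 1 else 0) [MOD q] :=
          Nat.ModEq.sum (fun i _ => this i)
      _ = J.card := by rw [hJ, Finset.card_filter]
  have h0 : J.card ≡ 0 [MOD q] := hmod.symm.trans ((Nat.modEq_zero_iff_dvd).mpr hx)
  have := (Nat.modEq_zero_iff_dvd).mp h0
  have := Nat.le_of_dvd hpos this
  omega

lemma cast_sum {k d : ℕ} (m : Fin d → ℤ) :
    ∑ i, |(m i : ℝ)| ^ k = ((∑ i, (m i).natAbs ^ k : ℕ) : ℝ) := by
  push_cast
  refine Finset.sum_congr rfl fun i _ => ?_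
  rw [Nat.cast_natAbs, Int.cast_abs]

/-- scaling by `p` is a bijection from `S(p^t)` to `S(p^(t+1))`. -/
lemma sphere_succ {k d p q : ℕ} (hp : 2 ≤ p)
    (h1 : ∀ m : ℕ, ¬ p ∣ m → m ^ k ≡ 1 [MOD q])
    (h2 : ∀ m : ℕ, p ∣ m → q ∣ m ^ k) (hdq : d < q) (t : ℕ) :
    sphere k d ((p : ℝ) ^ (t + 1)) = (fun (m : Fin d → ℤ) i => (p : ℤ) * m i) '' sphere k d ((p : ℝ) ^ t) := by
  ext m
  have hp0 : (0 : ℝ) < p := by positivity
  simp only [sphere, Set.mem_ofPred_eq, Set.mem_image]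
  constructor
  · intro hm
    rw [cast_sum] at hm
    have hm' : ∑ i, (m i).natAbs ^ k = (p ^ (t + 1)) ^ k := by exact_mod_cast hm
    have hd : ∀ i, p ∣ (m i).natAbs := by
      refine all_dvd h1 h2 hdq (fun i => (m i).natAbs) ?_
      rw [hm']
      exact h2 _ (dvd_pow_self p (Nat.succ_ne_zero t))
    choose y hy using fun i => Int.natCast_dvd.mpr (hd i)
    refine ⟨y, ?_, ?_⟩
    · have : ∑ i, |((m i : ℤ) : ℝ)| ^ k = (p : ℝ) ^ k * ∑ i, |(y i : ℝ)| ^ k := by
        rw [Finset.mul_sum]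
        refine Finset.sum_congr rfl fun i _ => ?_
        rw [hy i]
        push_cast
        rw [abs_mul, mul_pow, abs_of_pos hp0]
      rw [← cast_sum] at hm
      rw [this] at hm
      have hpk : (p : ℝ) ^ k ≠ 0 := by positivity
      have : (p : ℝ) ^ k * ∑ i, |(y i : ℝ)| ^ k = (p : ℝ) ^ k * ((p : ℝ) ^ t) ^ k := by
        rw [hm, pow_succ, mul_pow]; ring
      exact mul_left_cancel₀ hpk this
    · funext i
      exact (hy i).symm
  · rintro ⟨y, hy, rfl⟩
    have : ∑ i, |(((p : ℤ) * y i : ℤ) : ℝ)| ^ k = (p : ℝ) ^ k * ∑ i, |(y i : ℝ)| ^ k := by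
      rw [Finset.mul_sum]
      refine Finset.sum_congr rfl fun i _ => ?_
      push_cast
      rw [abs_mul, mul_pow, abs_of_pos hp0]
    rw [this, hy, pow_succ, mul_pow]; ring

lemma ncard_const {k d p q : ℕ} (hp : 2 ≤ p)
    (h1 : ∀ m : ℕ, ¬ p ∣ m → m ^ k ≡ 1 [MOD q])
    (h2 : ∀ m : ℕ, p ∣ m → q ∣ m ^ k) (hdq : d < q) (t : ℕ) :
    (sphere k d ((p : ℝ) ^ t)).ncard = (sphere k d 1).ncard := by
  induction t with
  | zero => simp
  | succ t ih =>
    rw [sphere_succ hp h1 h2 hdq t, Set.ncard_image_of_injective, ih]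
    intro a b hab
    funext i
    have := congrFun hab i
    simp only at this
    have hp' : (p : ℤ) ≠ 0 := by positivity
    exact mul_left_cancel₀ hp' this

/-- The order of magnitude fails if there is a `p`-adic obstruction. -/
lemma fails {k d p q : ℕ} (hp : 2 ≤ p) (hk : 1 ≤ k) (hkd : k < d)
    (h1 : ∀ m : ℕ, ¬ p ∣ m → m ^ k ≡ 1 [MOD q])
    (h2 : ∀ m : ℕ, p ∣ m → q ∣ m ^ k) (hdq : d < q) : ¬ OrderHolds k d := by
  rintro ⟨c, C, r₀, hc, -, h⟩
  set A : ℝ := ((sphere k d 1).ncard : ℝ) with hA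
  obtain ⟨t, ht⟩ := pow_unbounded_of_one_lt (max r₀ (A / c)) (show (1 : ℝ) < p by exact_mod_cast hp)
  have ht1 : r₀ ≤ (p : ℝ) ^ t := (le_max_left _ _).trans ht.le
  have ht2 : A / c < (p : ℝ) ^ t := (le_max_right _ _).trans_lt ht
  have hpt : (1 : ℝ) ≤ (p : ℝ) ^ t := one_le_pow₀ (by exact_mod_cast (by omega : 1 ≤ p))
  have hne : (sphere k d ((p : ℝ) ^ t)).Nonempty := by
    have hd0 : 0 < d := by omega
    refine ⟨fun i => if i = ⟨0, hd0⟩ then (p : ℤ) ^ t else 0, ?_⟩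
    simp only [sphere, Set.mem_ofPred_eq]
    rw [Finset.sum_eq_single ⟨0, hd0⟩]
    · simp [abs_of_nonneg]
    · intro b _ hb
      have hk0 : ¬ k = 0 := by omega
      simp [hb, hk0]
    · simp
  have hlow := (h _ (by positivity) ht1 hne).1
  rw [ncard_const hp h1 h2 hdq t, ← hA] at hlow
  have hexp : (p : ℝ) ^ t ≤ ((p : ℝ) ^ t) ^ ((d : ℝ) - k) := by
    have h1' : (1 : ℝ) ≤ (d : ℝ) - k := by
      have : (k : ℝ) + 1 ≤ d := by exact_mod_cast hkd
      linarith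
    calc (p : ℝ) ^ t = ((p : ℝ) ^ t) ^ (1 : ℝ) := (Real.rpow_one _).symm
      _ ≤ _ := Real.rpow_le_rpow_of_exponent_le hpt h1'
  have : c * (p : ℝ) ^ t ≤ A := (mul_le_mul_of_nonneg_left hexp hc.le).trans hlow
  rw [div_lt_iff₀ hc] at ht2
  linarith

/-- odd powers of two. -/
lemma two_pow_modEq (a : ℕ) (m : ℕ) (hm : ¬ 2 ∣ m) :
    m ^ (2 ^ (a + 1)) ≡ 1 [MOD 2 ^ (a + 3)] := by
  induction a with
  | zero =>
    have hodd : m % 2 = 1 := by omega
    have h8 : m % 8 = 1 ∨ m % 8 = 3 ∨ m % 8 = 5 ∨ m % 8 = 7 := by omega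
    norm_num [Nat.ModEq]
    rcases h8 with h | h | h | h <;> simp [Nat.pow_mod, h]
  | succ a ih =>
    have hm1 : 1 ≤ m ^ (2 ^ (a + 1)) := Nat.one_le_iff_ne_zero.mpr (by
      intro h0
      have : m = 0 := by
        exact pow_eq_zero_iff (by positivity) |>.mp h0
      exact hm (this ▸ dvd_zero 2))
    have hdiv : 2 ^ (a + 3) ∣ m ^ (2 ^ (a + 1)) - 1 := (Nat.modEq_iff_dvd' hm1).mp ih.symm
    obtain ⟨s, hs⟩ := hdiv
    have he : m ^ (2 ^ (a + 1)) = 2 ^ (a + 3) * s + 1 := by omega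
    have : m ^ (2 ^ (a + 1 + 1)) = 2 ^ (a + 1 + 3) * (s + 2 ^ (a + 2) * s ^ 2) + 1 := by
      rw [pow_succ 2 (a + 1), pow_mul, he]
      ring
    rw [this]
    exact ((Nat.modEq_iff_dvd' (by omega)).mpr ⟨s + 2 ^ (a + 2) * s ^ 2, by simp⟩).symm

lemma odd_case {k p : ℕ} (hp : p.Prime) (hpk : (p - 1) ∣ k) (m : ℕ) (hm : ¬ p ∣ m) :
    m ^ k ≡ 1 [MOD p ^ (padicValNat p k + 1)] := by
  have := Fact.mk hp
  have hcop : Nat.Coprime m (p ^ (padicValNat p k + 1)) :=
    (Nat.Coprime.pow_right _ ((Nat.Prime.coprime_iff_not_dvd hp).mpr hm).symm)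
  have htot : Nat.totient (p ^ (padicValNat p k + 1)) ∣ k := by
    rw [Nat.totient_prime_pow_succ hp]
    refine Nat.Coprime.mul_dvd_of_dvd_of_dvd ?_ (pow_padicValNat_dvd) hpk
    refine Nat.Coprime.pow_left _ ?_
    have := Nat.coprime_self_sub_right (m := 1) (n := p) hp.one_le
    exact this.mpr (Nat.coprime_one_right p)
  obtain ⟨s, hs⟩ := htot
  conv_lhs => rw [hs, pow_mul]
  simpa using (Nat.ModEq.pow_totient hcop).pow s

lemma two_case {k : ℕ} (h2 : 2 ∣ k) (hk : 1 ≤ k) (m : ℕ) (hm : ¬ 2 ∣ m) :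
    m ^ k ≡ 1 [MOD 2 ^ (padicValNat 2 k + 2)] := by
  have ha : 1 ≤ padicValNat 2 k := one_le_padicValNat_of_dvd (by omega) h2
  obtain ⟨a, hak⟩ : ∃ a, padicValNat 2 k = a + 1 := ⟨padicValNat 2 k - 1, by omega⟩
  obtain ⟨s, hs⟩ : 2 ^ padicValNat 2 k ∣ k := pow_padicValNat_dvd
  rw [hak] at hs ⊢
  conv_lhs => rw [hs, pow_mul]
  simpa using (two_pow_modEq a m hm).pow s

section lifting

variable {p b : ℕ}

lemma dvd_aux (hb : b + 2 ≤ b * p) (s : ℕ) {R : Type*} [CommRing R] :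
    (p : R) * (p : R) ^ (b + s) * (p : R) ∣ ((p : R) ^ (b + s)) ^ p := by
  rw [← pow_succ', ← pow_succ, ← pow_mul]
  refine pow_dvd_pow _ ?_
  nlinarith

lemma exists_approx (hpr : p.Prime) (hb0 : 1 ≤ b) (hb : b + 2 ≤ b * p) {R : Type*} [CommRing R]
    (m : ℕ) (c : R) (s : ℕ) :
    ∃ x e : R, (1 + (p : R) ^ b * x) ^ (p ^ m) = 1 + (p : R) ^ (m + b) * (c + (p : R) ^ s * e) := by
  induction s with
  | zero => exact ⟨0, -c, by simp⟩
  | succ s ih =>
    obtain ⟨x, e, hx⟩ := ih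
    obtain ⟨y, hy⟩ := ZMod.exists_one_add_mul_pow_prime_pow_eq (R := R) (u := (p : R) ^ (b + s)) (v := (p : R)) hpr
      (dvd_pow_self _ (by omega)) (dvd_aux hb s) (-e) m
    obtain ⟨b', rfl⟩ : ∃ b', b = b' + 1 := ⟨b - 1, by omega⟩
    refine ⟨x + (p : R) ^ s * (-e) * (1 + (p : R) ^ (b' + 1) * x),
      y + (p : R) ^ (m + b') * (c + (p : R) ^ s * e) * (-e + p * y), ?_⟩
    have h1 : (1 + (p : R) ^ (b' + 1) * (x + (p : R) ^ s * (-e) * (1 + (p : R) ^ (b' + 1) * x))) =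
        (1 + (p : R) ^ (b' + 1) * x) * (1 + (p : R) ^ (b' + 1 + s) * (-e)) := by ring
    rw [h1, mul_pow, hx, hy]
    ring

lemma exists_pow_eq (hpr : p.Prime) (hb0 : 1 ≤ b) (hb : b + 2 ≤ b * p) (t : ℕ) (ht : 1 ≤ t) {k : ℕ} (hk : k ≠ 0)
    (c : ZMod (p ^ t)) :
    ∃ x : ZMod (p ^ t), (1 + (p : ZMod (p ^ t)) ^ b * x) ^ k =
      1 + (p : ZMod (p ^ t)) ^ (padicValNat p k + b) * c := by
  have := Fact.mk hpr
  set m := padicValNat p k with hm
  obtain ⟨k', hk'⟩ : p ^ m ∣ k := pow_padicValNat_dvd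
  have hcop : Nat.Coprime k' (p ^ t) := by
    refine Nat.Coprime.pow_right _ (Nat.Coprime.symm ((Nat.Prime.coprime_iff_not_dvd hpr).mpr ?_))
    rintro ⟨l, rfl⟩
    have h1 : p ^ (m + 1) ∣ k := ⟨l, by rw [hk', pow_succ]; ring⟩
    have := (padicValNat_dvd_iff_le hk).mp h1
    omega
  have hpt : 1 < p ^ t := Nat.one_lt_pow (by omega) hpr.one_lt
  obtain ⟨k'', hk''⟩ := Nat.exists_mul_mod_eq_one_of_coprime hcop hpt
  set q : ZMod (p ^ t) := (p : ZMod (p ^ t)) with hq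
  have hq0 : q ^ t = 0 := by
    rw [hq, ← Nat.cast_pow, ZMod.natCast_self]
  set u := 1 + q ^ (m + b) * c with hu
  have hu1 : u ^ (p ^ t) = 1 := by
    obtain ⟨y, hy⟩ := ZMod.exists_one_add_mul_pow_prime_pow_eq (R := ZMod (p ^ t)) (u := q ^ (b + m))
      (v := q) hpr (dvd_pow_self _ (by omega)) (dvd_aux hb m) c t
    rw [hu, add_comm m b, hy, ← hq, hq0]
    ring
  have hw : q ^ (m + b) ∣ u ^ k'' - 1 := by
    have h2 : u - 1 ∣ u ^ k'' - 1 ^ k'' := sub_dvd_pow_sub_pow u 1 k''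
    rw [one_pow] at h2
    exact (Dvd.intro c (by rw [hu]; ring)).trans h2
  obtain ⟨c', hc'⟩ := hw
  obtain ⟨x, e, hx⟩ := exists_approx (R := ZMod (p ^ t)) hpr hb0 hb m c' t
  refine ⟨x, ?_⟩
  have hkk : k' * k'' = 1 + p ^ t * (k' * k'' / p ^ t) := by
    have := Nat.mod_add_div (k' * k'') (p ^ t)
    omega
  rw [← hq] at hx
  rw [hq0, zero_mul, add_zero, ← hc'] at hx
  calc (1 + q ^ b * x) ^ k = ((1 + q ^ b * x) ^ (p ^ m)) ^ k' := by rw [← pow_mul, ← hk']
    _ = (u ^ k'') ^ k' := by rw [hx]; ring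
    _ = u ^ (k' * k'') := by rw [← pow_mul, mul_comm]
    _ = u := by rw [hkk, pow_add, pow_mul, hu1]; simp

/-- Lifting of primitive solutions. -/
lemma lift_solution (hpr : p.Prime) (hb0 : 1 ≤ b) (hb : b + 2 ≤ b * p) {k d : ℕ} (hk : k ≠ 0)
    (x : Fin d → ℕ) (hx : p ^ (padicValNat p k + b) ∣ ∑ i, x i ^ k) (i₀ : Fin d) (hi₀ : ¬ p ∣ x i₀)
    (t : ℕ) : ∃ y : Fin d → ℕ, p ^ t ∣ ∑ i, y i ^ k ∧ ∃ i, ¬ p ∣ y i := by
  have := Fact.mk hpr
  classical
  -- it suffices to treat the exponent `t + 1`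
  suffices H : ∃ y : Fin d → ℕ, p ^ (t + 1) ∣ ∑ i, y i ^ k ∧ ∃ i, ¬ p ∣ y i by
    obtain ⟨y, hy, hi⟩ := H
    exact ⟨y, (pow_dvd_pow p (by omega)).trans hy, hi⟩
  have : NeZero (p ^ (t + 1)) := ⟨(pow_pos hpr.pos _).ne'⟩
  have hunit : IsUnit (x i₀ : ZMod (p ^ (t + 1))) := by
    rw [ZMod.isUnit_iff_coprime]
    exact Nat.Coprime.pow_right _ (Nat.Coprime.symm ((Nat.Prime.coprime_iff_not_dvd hpr).mpr hi₀))
  obtain ⟨v, hv⟩ := hunit
  obtain ⟨c₀, hc₀⟩ := hx
  have hsum : ∑ i, (x i : ZMod (p ^ (t + 1))) ^ k = (p : ZMod (p ^ (t + 1))) ^ (padicValNat p k + b) * c₀ := by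
    have := congrArg (Nat.cast : ℕ → ZMod (p ^ (t + 1))) hc₀
    push_cast at this
    exact this
  obtain ⟨z, hz⟩ := exists_pow_eq hpr hb0 hb (t + 1) (by omega) hk (-(c₀ : ZMod (p ^ (t + 1))) * ((v⁻¹ : (ZMod (p ^ (t + 1)))ˣ) : ZMod (p ^ (t + 1))) ^ k)
  set y₀ : ZMod (p ^ (t + 1)) := (x i₀ : ZMod (p ^ (t + 1))) * (1 + (p : ZMod (p ^ (t + 1))) ^ b * z) with hy₀
  have hy₀k : y₀ ^ k = (x i₀ : ZMod (p ^ (t + 1))) ^ k - (p : ZMod (p ^ (t + 1))) ^ (padicValNat p k + b) * c₀ := by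
    rw [hy₀, mul_pow, hz, ← hv]
    have : (v : ZMod (p ^ (t + 1))) ^ k * ((v⁻¹ : (ZMod (p ^ (t + 1)))ˣ) : ZMod (p ^ (t + 1))) ^ k = 1 := by
      rw [← mul_pow, Units.mul_inv, one_pow]
    linear_combination (-(p : ZMod (p ^ (t + 1))) ^ (padicValNat p k + b) * c₀) * this
  refine ⟨Function.update x i₀ y₀.val, ?_, i₀, ?_⟩
  · rw [← ZMod.natCast_eq_zero_iff]
    push_cast
    rw [← Finset.add_sum_erase _ _ (mem_univ i₀)]
    have h1 : ∑ i ∈ univ.erase i₀, ((Function.update x i₀ y₀.val i : ℕ) : ZMod (p ^ (t + 1))) ^ k =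
        ∑ i ∈ univ.erase i₀, (x i : ZMod (p ^ (t + 1))) ^ k := by
      refine Finset.sum_congr rfl fun i hi => ?_
      rw [Function.update_of_ne (Finset.ne_of_mem_erase hi)]
    rw [h1, Function.update_self, ZMod.natCast_val, ZMod.cast_id, hy₀k]
    have h2 := Finset.add_sum_erase univ (fun i => (x i : ZMod (p ^ (t + 1))) ^ k) (mem_univ i₀)
    rw [hsum] at h2
    linear_combination h2
  · rw [Function.update_self]
    intro hdvd
    have hcast : ((y₀.val : ℕ) : ZMod p) = 0 := (ZMod.natCast_eq_zero_iff _ _).mpr hdvd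
    have hh : p ∣ p ^ (t + 1) := dvd_pow_self p (by omega)
    have h3 : (ZMod.castHom hh (ZMod p)) y₀ = ((y₀.val : ℕ) : ZMod p) := by
      conv_lhs => rw [← ZMod.natCast_zmod_val y₀]
      rw [map_natCast]
    rw [hcast, hy₀, map_mul, map_natCast, map_add, map_one, map_mul, map_pow, map_natCast,
      ZMod.natCast_self, zero_pow (by omega), zero_mul, add_zero, mul_one,
      ZMod.natCast_eq_zero_iff] at h3
    exact hi₀ h3

end lifting

section solvability

/-- ones -/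
lemma ones_solution {p b k d : ℕ} (hpr : p.Prime) (hb0 : 1 ≤ b) (hb : b + 2 ≤ b * p) (hk : k ≠ 0)
    (hd : p ^ (padicValNat p k + b) ≤ d) (t : ℕ) :
    ∃ y : Fin d → ℕ, p ^ t ∣ ∑ i, y i ^ k ∧ ∃ i, ¬ p ∣ y i := by
  classical
  have hpos : 0 < p ^ (padicValNat p k + b) := pow_pos hpr.pos _
  refine lift_solution hpr hb0 hb hk
    (fun i => if i.val < p ^ (padicValNat p k + b) then 1 else 0) ?_ ⟨0, by omega⟩ ?_ t
  · have h1 : ∑ i : Fin d, (if i.val < p ^ (padicValNat p k + b) then 1 else 0) ^ k =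
        p ^ (padicValNat p k + b) := by
      have h2 : ∀ i : Fin d, (if i.val < p ^ (padicValNat p k + b) then 1 else 0) ^ k =
          (if i.val < p ^ (padicValNat p k + b) then 1 else 0) := by
        intro i; split_ifs <;> simp [hk]
      rw [Finset.sum_congr rfl fun i _ => h2 i, Fin.sum_univ_eq_sum_range
        (fun j => if j < p ^ (padicValNat p k + b) then 1 else 0) d, ← Finset.card_filter]
      have h3 : (Finset.range d).filter (fun j => j < p ^ (padicValNat p k + b)) =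
          Finset.range (p ^ (padicValNat p k + b)) := by
        ext j; simp; omega
      rw [h3, Finset.card_range]
    exact (dvd_of_eq h1.symm)
  · simp [hpos, hpr.one_lt.ne']

/-- odd exponents -/
lemma odd_solution {p k d : ℕ} (hpr : p.Prime) (hk : Odd k) (hd : 2 ≤ d) (t : ℕ) :
    ∃ y : Fin d → ℕ, p ^ t ∣ ∑ i, y i ^ k ∧ ∃ i, ¬ p ∣ y i := by
  classical
  have hk0 : k ≠ 0 := by rintro rfl; simp at hk
  refine ⟨fun i => if i.val = 0 then 1 else if i.val = 1 then p ^ t - 1 else 0, ?_, ⟨0, by omega⟩, ?_⟩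
  · have h1 : ∑ i : Fin d, (if i.val = 0 then 1 else if i.val = 1 then p ^ t - 1 else 0) ^ k =
        1 ^ k + (p ^ t - 1) ^ k := by
      obtain ⟨d', rfl⟩ : ∃ d', d = d' + 2 := ⟨d - 2, by omega⟩
      rw [Fin.sum_univ_succ, Fin.sum_univ_succ]
      simp [hk0]
    rw [h1]
    have hpt : 1 ≤ p ^ t := Nat.one_le_pow _ _ hpr.pos
    have := Odd.nat_add_dvd_pow_add_pow 1 (p ^ t - 1) hk
    rwa [show 1 + (p ^ t - 1) = p ^ t by omega] at this
  · simp [hpr.one_lt.ne']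

/-- geometric progressions -/
lemma geom_solution {p k d : ℕ} (hpr : p.Prime) (hp2 : p ≠ 2) (hk : k ≠ 0) (hpk : ¬ (p - 1) ∣ k)
    (hd : p - 1 ≤ d) (t : ℕ) :
    ∃ y : Fin d → ℕ, p ^ t ∣ ∑ i, y i ^ k ∧ ∃ i, ¬ p ∣ y i := by
  classical
  have := Fact.mk hpr
  have hp3 : 3 ≤ p := by
    have := hpr.two_le
    omega
  obtain ⟨g, hg⟩ : ∃ g : (ZMod p)ˣ, g ^ k ≠ 1 := by
    by_contra hcon
    push Not at hcon
    have := (FiniteField.forall_pow_eq_one_iff (ZMod p) k).mp hcon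
    rw [ZMod.card] at this
    exact hpk this
  set a : ℕ := (g : ZMod p).val with ha
  have hag : (a : ZMod p) = g := by rw [ha, ZMod.natCast_zmod_val]
  have hpa : ¬ p ∣ a := by
    rw [← ZMod.natCast_eq_zero_iff, hag]
    exact g.ne_zero
  refine lift_solution (b := 1) hpr le_rfl (by omega) hk
    (fun i => if i.val < p - 1 then a ^ i.val else 0) ?_ ⟨0, by omega⟩ ?_ t
  · have h1 : ∑ i : Fin d, (if i.val < p - 1 then a ^ i.val else 0) ^ k =
        ∑ i ∈ Finset.range (p - 1), (a ^ k) ^ i := by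
      rw [Fin.sum_univ_eq_sum_range (fun j => (if j < p - 1 then a ^ j else 0) ^ k) d]
      rw [← Finset.sum_subset (Finset.range_subset_range.mpr hd)]
      · refine Finset.sum_congr rfl fun i hi => ?_
        rw [if_pos (Finset.mem_range.mp hi), ← pow_mul, ← pow_mul, mul_comm]
      · intro i _ hi
        rw [if_neg (by simpa using hi), zero_pow hk]
    rw [h1]
    have hZ : (p : ℤ) ^ (padicValNat p k + 1) ∣
        ((a : ℤ) ^ k - 1) * ∑ i ∈ Finset.range (p - 1), ((a : ℤ) ^ k) ^ i := by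
      rw [mul_geom_sum, ← pow_mul]
      have hcop : Nat.Coprime a (p ^ (padicValNat p k + 1)) :=
        (Nat.Coprime.pow_right _ ((Nat.Prime.coprime_iff_not_dvd hpr).mpr hpa).symm)
      have htot : Nat.totient (p ^ (padicValNat p k + 1)) ∣ k * (p - 1) := by
        rw [Nat.totient_prime_pow_succ hpr]
        exact mul_dvd_mul_right pow_padicValNat_dvd _
      obtain ⟨s, hs⟩ := htot
      have h2 : a ^ (k * (p - 1)) ≡ 1 [MOD p ^ (padicValNat p k + 1)] := by
        rw [hs, pow_mul]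
        simpa using (Nat.ModEq.pow_totient hcop).pow s
      have h3 := (Nat.modEq_iff_dvd).mp h2.symm
      push_cast at h3
      exact h3
    have hcop2 : IsCoprime ((p : ℤ) ^ (padicValNat p k + 1)) ((a : ℤ) ^ k - 1) := by
      refine IsCoprime.pow_left ?_
      rw [Prime.coprime_iff_not_dvd (Nat.prime_iff_prime_int.mp hpr)]
      intro h4
      apply hg
      have h5 := (ZMod.intCast_zmod_eq_zero_iff_dvd ((a : ℤ) ^ k - 1) p).mpr h4
      push_cast at h5
      rw [hag] at h5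
      ext
      push_cast
      linear_combination h5
    have h6 := hcop2.dvd_of_dvd_mul_left hZ
    exact_mod_cast h6
  · simp [hpr.one_lt, hpr.one_lt.ne']

/-- Chevalley-Warning -/
lemma cw_solution {p k d : ℕ} (hpr : p.Prime) (hp2 : p ≠ 2) (hk : k ≠ 0) (hpk : ¬ p ∣ k)
    (hd : k < d) (t : ℕ) :
    ∃ y : Fin d → ℕ, p ^ t ∣ ∑ i, y i ^ k ∧ ∃ i, ¬ p ∣ y i := by
  classical
  have := Fact.mk hpr
  have hp3 : 3 ≤ p := by
    have := hpr.two_le
    omega
  set f : MvPolynomial (Fin d) (ZMod p) := ∑ i, MvPolynomial.X i ^ k with hf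
  have hdeg : f.totalDegree < Fintype.card (Fin d) := by
    rw [Fintype.card_fin]
    refine lt_of_le_of_lt (MvPolynomial.totalDegree_finsetSum_le (d := k) ?_) hd
    intro i _
    exact (MvPolynomial.totalDegree_pow _ _).trans (by simp)
  have hcw := char_dvd_card_solutions p hdeg
  have heval : ∀ x : Fin d → ZMod p, MvPolynomial.eval x f = ∑ i, x i ^ k := by
    intro x; simp [hf]
  have hex : ∃ x : Fin d → ZMod p, MvPolynomial.eval x f = 0 ∧ x ≠ 0 := by
    by_contra hcon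
    push Not at hcon
    have : Fintype.card { x : Fin d → ZMod p // MvPolynomial.eval x f = 0 } = 1 := by
      rw [Fintype.card_eq_one_iff]
      refine ⟨⟨0, by rw [heval]; simp [hk]⟩, fun y => Subtype.ext (hcon y.1 y.2)⟩
    rw [this] at hcw
    have := Nat.le_of_dvd one_pos hcw
    omega
  obtain ⟨x, hx, hx0⟩ := hex
  obtain ⟨i₀, hi₀⟩ := Function.ne_iff.mp hx0
  have hv : padicValNat p k = 0 := padicValNat.eq_zero_of_not_dvd hpk
  refine lift_solution (b := 1) hpr le_rfl (by omega) hk (fun i => (x i).val) ?_ i₀ ?_ t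
  · rw [hv, zero_add, pow_one, ← ZMod.natCast_eq_zero_iff]
    push_cast
    rw [heval] at hx
    simpa using hx
  · rw [← ZMod.natCast_eq_zero_iff, ZMod.natCast_zmod_val]
    exact hi₀

/-- There is no local obstruction in the remaining dimensions. -/
theorem primitive_solution {k d : ℕ} (hk : 3 ≤ k) (h1 : k + 2 ≤ d)
    (h2 : ∀ p : ℕ, p.Prime → (p - 1) ∣ k → p ^ (padicValNat p k + 1) ≤ d)
    (h3 : 2 ∣ k → 2 ^ (padicValNat 2 k + 2) ≤ d) (p : ℕ) (hpr : p.Prime) (t : ℕ) :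
    ∃ y : Fin d → ℕ, p ^ t ∣ ∑ i, y i ^ k ∧ ∃ i, ¬ p ∣ y i := by
  rcases Nat.even_or_odd k with he | ho
  · have h2k : 2 ∣ k := even_iff_two_dvd.mp he
    rcases eq_or_ne p 2 with rfl | hp2
    · exact ones_solution (b := 2) Nat.prime_two (by norm_num) (by norm_num) (by omega) (h3 h2k) t
    · have hp3 : 3 ≤ p := by
        have := hpr.two_le
        omega
      by_cases hp1 : (p - 1) ∣ k
      · exact ones_solution (b := 1) hpr le_rfl (by omega) (by omega) (h2 p hpr hp1) t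
      · by_cases hpk : p ∣ k
        · have := Nat.le_of_dvd (by omega) hpk
          exact geom_solution hpr hp2 (by omega) hp1 (by omega) t
        · exact cw_solution hpr hp2 (by omega) hpk (by omega) t
  · exact odd_solution hpr ho (by omega) t

end solvability

lemma two_add_le {k : ℕ} (hk : 3 ≤ k) (h2 : 2 ∣ k) : padicValNat 2 k + 2 ≤ k := by
  have h3 : 2 ^ padicValNat 2 k ≤ k := Nat.le_of_dvd (by omega) pow_padicValNat_dvd
  rcases Nat.lt_or_ge (padicValNat 2 k) 2 with h4 | h4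
  · omega
  · have : padicValNat 2 k + 2 ≤ 2 ^ padicValNat 2 k := by
      obtain ⟨b, hb⟩ : ∃ b, padicValNat 2 k = b + 2 := ⟨padicValNat 2 k - 2, by omega⟩
      rw [hb]
      have := (Nat.lt_pow_self (n := b) one_lt_two)
      rw [pow_add]
      omega
    omega

lemma odd_dvd {k p : ℕ} (hk : 1 ≤ k) (hp : p.Prime) (m : ℕ) (hm : p ∣ m) :
    p ^ (padicValNat p k + 1) ∣ m ^ k := by
  have h1 : padicValNat p k + 1 ≤ k := by
    have : p ^ padicValNat p k ≤ k := Nat.le_of_dvd (by omega) pow_padicValNat_dvd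
    exact (Nat.lt_pow_self hp.one_lt).trans_le this
  exact (pow_dvd_pow p h1).trans (pow_dvd_pow_of_dvd hm k)

lemma two_dvd {k : ℕ} (hk : 3 ≤ k) (h2 : 2 ∣ k) (m : ℕ) (hm : 2 ∣ m) :
    2 ^ (padicValNat 2 k + 2) ∣ m ^ k :=
  (pow_dvd_pow 2 (two_add_le hk h2)).trans (pow_dvd_pow_of_dvd hm k)

lemma threshold_le_iff {k d : ℕ} (hk : 3 ≤ k) : threshold k ≤ d ↔
    k + 2 ≤ d ∧ (∀ p : ℕ, p.Prime → (p - 1) ∣ k → p ^ (padicValNat p k + 1) ≤ d) ∧
    (2 ∣ k → 2 ^ (padicValNat 2 k + 2) ≤ d) := by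
  unfold threshold
  rw [max_le_iff, max_le_iff, Finset.sup_le_iff]
  refine and_congr_right fun _ => and_congr ?_ ?_
  · constructor
    · intro h p hp hpk
      have := Nat.le_of_dvd (by omega) hpk
      exact h p (by simp [hp, hpk]; omega)
    · intro h p hp
      simp only [Finset.mem_filter] at hp
      exact h p hp.2.1 hp.2.2
  · split_ifs with h
    · simp [h]
    · simp [h]

/-- **Result.**  For every `k ≥ 3`: if the order of magnitude `N_{k,d}(r) ≍ r^(d-k)` holds in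
dimension `d ≥ 1`, then `d ≥ D(k)`, that is `d_0(k) ≥ D(k)`; and, for `d ≥ k + 2`, one has
`D(k) ≤ d` if and only if `x_1^k + ... + x_d^k` has no obstruction at any prime. -/
theorem result (k : ℕ) (hk : 3 ≤ k) :
    (∀ d : ℕ, 1 ≤ d → OrderHolds k d → threshold k ≤ d) ∧
    (∀ d : ℕ, k + 2 ≤ d → (threshold k ≤ d ↔ ∀ p : ℕ, p.Prime → Isotropic k d p)) := by
  constructor
  · intro d hd h
    have hkd : k + 2 ≤ d := AtLeastKPlusTwo.result k hk d hd h
    rw [threshold_le_iff hk]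
    refine ⟨hkd, ?_, ?_⟩
    · intro p hp hpk
      by_contra hcon
      exact fails hp.two_le (by omega) (by omega) (odd_case hp hpk) (odd_dvd (by omega) hp)
        (by omega) h
    · intro h2
      by_contra hcon
      exact fails le_rfl (by omega) (by omega) (two_case h2 (by omega)) (two_dvd hk h2)
        (by omega) h
  · intro d hkd
    constructor
    · intro h p hp t
      obtain ⟨h1, h2, h3⟩ := (threshold_le_iff hk).mp h
      exact primitive_solution hk h1 h2 h3 p hp t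
    · intro h
      rw [threshold_le_iff hk]
      refine ⟨hkd, ?_, ?_⟩
      · intro p hp hpk
        by_contra hcon
        obtain ⟨y, hy, i, hi⟩ := h p hp (padicValNat p k + 1)
        exact hi (all_dvd (odd_case hp hpk) (odd_dvd (by omega) hp) (by omega) y hy i)
      · intro h2
        by_contra hcon
        obtain ⟨y, hy, i, hi⟩ := h 2 Nat.prime_two (padicValNat 2 k + 2)
        exact hi (all_dvd (two_case h2 (by omega)) (two_dvd hk h2) (by omega) y hy i)

end Pool.Agent.Results.MP_927be3_nt.LocalLowerBound
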